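import Pool.Agent.Helper94.FP.Exact

/-!
# The maximum number of edges of fan-planar multigraphs without homotopic parallel edges

`M(3) = 3`, `M(4) = 8` and `M(n) = 5n - 10` for all `n ≥ 5`.

Outline.  Upper bounds: `5n - 10` holds for all `n ≥ 3` (starting file `UpperBound`).  For `n = 3` two
parallel edges leave only one vertex for the two regions.  For `n = 4` three parallel edges would
bound three regions with only two vertices; and if `ab` is a double edge and `cd` is an edge then some
copy of `ab` crosses some copy of `cd`, and this is impossible if one of `ac`, `ad`, `bc`, `bd` is a
double edge, since such a double edge separates the copies of `ab` from those of `cd`.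

Constructions: a five-cycle with all five diagonals drawn on either side has `15` edges; on either side
one more vertex, joined to all five vertices of the cycle, can be put into the middle.  This gives
`n = 5, 6, 7`.  Two drawings with an uncrossed edge can be cut along this edge and glued along the
cuts: the numbers `n - 2` and the numbers of edges are added up.
-/

set_option autoImplicit false

namespace Pool.Agent.Results.MP_7b591c_co.ExactMaximum

open Pool.Agent.Q238.FP

/-- There is a fan-planar multigraph without homotopic parallel edges with `n` vertices and `m`
edges. -/
def Has (n m : ℕ) : Prop :=
  ∃ (V E F : Type) (_ : Fintype V) (_ : Fintype E) (_ : Finite F) (G : Drawing V E F),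
    G.Loopless ∧ G.Simple ∧ G.FanPlanar ∧ G.NonHomotopic ∧ Fintype.card V = n ∧
      Fintype.card E = m

/-- **The maximum number `M(n)` of edges.** -/
theorem result (n : ℕ) (hn : 3 ≤ n) :
    IsGreatest {m | Has n m} (if n = 3 then 3 else if n = 4 then 8 else 5 * n - 10) :=
  Pool.Agent.Helper94.FP.exact n hn

end Pool.Agent.Results.MP_7b591c_co.ExactMaximum
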